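import Mathlib
import Pool.Agent.TH923.DM.All
import Pool.Agent.TH923.DM.Pre

/-!
# Strong uniform boundedness for additive polynomials in positive characteristic
-/

set_option autoImplicit false

namespace Pool.Agent.Results.MP_9b502d_nt.AdditiveCharP

open Polynomial Pool.Agent.TH923.DM

universe u1 u2 u3

/-- Orbits of an affine additive map. -/
lemma preper_affine {L : Type u3} [Field L] (φ : L →+ L) (c : L) (B : ℕ)
    (hfin : {x : L | (Set.range (fun n : ℕ => (⇑φ)^[n] x)).Finite}.Finite)
    (hB : {x : L | (Set.range (fun n : ℕ => (⇑φ)^[n] x)).Finite}.ncard ≤ B) :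
    {z : L | (Set.range fun n : ℕ => (fun x => c + φ x)^[n] z).Finite}.encard ≤ (B : ℕ∞) := by
  classical
  rcases Set.eq_empty_or_nonempty
    {z : L | (Set.range fun n : ℕ => (fun x => c + φ x)^[n] z).Finite} with h | ⟨z0, hz0⟩
  · rw [h]
    simp
  have key : ∀ (n : ℕ) (z : L), (fun x => c + φ x)^[n] z - (fun x => c + φ x)^[n] z0 =
      (⇑φ)^[n] (z - z0) := by
    intro n
    induction n with
    | zero => intro z; rfl
    | succ n ih =>
      intro z
      rw [Function.iterate_succ_apply', Function.iterate_succ_apply',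
        Function.iterate_succ_apply', ← ih z, map_sub]
      ring
  have hsub : {z : L | (Set.range fun n : ℕ => (fun x => c + φ x)^[n] z).Finite} ⊆
      (fun x => x + z0) '' {x : L | (Set.range (fun n : ℕ => (⇑φ)^[n] x)).Finite} := by
    intro z hz
    refine ⟨z - z0, ?_, by simp⟩
    have h1 : (Set.range fun n : ℕ => (⇑φ)^[n] (z - z0)) ⊆
        Set.image2 (fun a b => a - b) (Set.range fun n : ℕ => (fun x => c + φ x)^[n] z)
          (Set.range fun n : ℕ => (fun x => c + φ x)^[n] z0) := by
      rintro _ ⟨n, rfl⟩
      exact ⟨_, ⟨n, rfl⟩, _, ⟨n, rfl⟩, key n z⟩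
    exact (Set.Finite.image2 _ hz hz0).subset h1
  refine (Set.encard_le_encard hsub).trans ((Set.encard_image_le _ _).trans ?_)
  rw [← hfin.cast_ncard_eq]
  exact_mod_cast hB

/-- Let `K` be a field of transcendence degree one over a field `k` of characteristic `p`, finite
over `k(θ)` of degree at most `m`, where `θ` in `K` is transcendental over `k`. For all `r ≥ 1`
and `D` there is `B = B(p, r, m, D)` such that for every extension `L / K` of degree at most `D`
every map `z ↦ c + θ z + g_1 z^p + ... + g_r z^(p^r)` with `c, g_i` in `L`, `g_r ≠ 0`, has at most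
`B` preperiodic points in `L`. -/
theorem result (p r m D : ℕ) (hp : p.Prime) (hr : 1 ≤ r) : ∃ B : ℕ,
    ∀ (k : Type u1) (K : Type u2) [Field k] [CharP k p] [Field K] [Algebra k K] (θ : K),
    Transcendental k θ → ∀ [FiniteDimensional (IntermediateField.adjoin k {θ}) K],
    Module.finrank (IntermediateField.adjoin k {θ}) K ≤ m →
    ∀ (L : Type u3) [Field L] [Algebra K L] [FiniteDimensional K L],
    Module.finrank K L ≤ D → ∀ (c : L) (g : ℕ → L), g r ≠ 0 →
    {z : L | (Set.range fun n : ℕ => (fun x => c + algebraMap K L θ * x +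
      ∑ i ∈ Finset.Icc 1 r, g i * x ^ p ^ i)^[n] z).Finite}.encard ≤ (B : ℕ∞) := by
  classical
  haveI : Fact p.Prime := ⟨hp⟩
  obtain ⟨N, hN⟩ := gen_all.{u1, u3} p r (m * D) hr
  refine ⟨p ^ N, ?_⟩
  intro k K _ _ _ _ θ hθ _ hm L _ _ _ hD c g hg
  let e := RatFunc.algEquivOfTranscendental θ hθ
  haveI : FiniteDimensional (IntermediateField.adjoin k {θ}) L :=
    FiniteDimensional.trans _ K L
  letI iB : Algebra (RatFunc k) L :=
    ((algebraMap (IntermediateField.adjoin k {θ}) L).comp (e : RatFunc k →+* _)).toAlgebra
  have hrank : Module.finrank (RatFunc k) L =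
      Module.finrank (IntermediateField.adjoin k {θ}) L := by
    apply Algebra.finrank_eq_of_equiv_equiv (e : RatFunc k ≃+* _) (RingEquiv.refl L)
    ext x
    rfl
  haveI : FiniteDimensional (RatFunc k) L := by
    apply FiniteDimensional.of_finrank_pos
    rw [hrank]
    exact Module.finrank_pos
  haveI : CharP (RatFunc k) p := charP_of_injective_algebraMap (algebraMap k (RatFunc k)).injective p
  haveI : CharP L p := charP_of_injective_algebraMap (algebraMap (RatFunc k) L).injective p
  letI : Algebra (ZMod p) L := ZMod.algebra L p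
  have hX : algebraMap (RatFunc k) L RatFunc.X = algebraMap K L θ := by
    show algebraMap K L ((e RatFunc.X : IntermediateField.adjoin k {θ}) : K) = _
    rw [RatFunc.algEquivOfTranscendental_X]
  have hle : Module.finrank (RatFunc k) L ≤ m * D := by
    rw [hrank, ← Module.finrank_mul_finrank (IntermediateField.adjoin k {θ}) K L]
    exact Nat.mul_le_mul hm hD
  set g' : ℕ → L := fun j => if j = 0 then algebraMap (RatFunc k) L RatFunc.X else g j with hg'
  have h1 := hN k L hle g' (by simp [hg']) (by
    simp only [hg', if_neg (by omega : r ≠ 0)]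
    exact hg)
  obtain ⟨h2, h3⟩ := preper_bound p (evL p g' r) N (fun M _ hM => h1 M hM)
  have h4 := preper_affine (evL p g' r).toAddMonoidHom c (p ^ N) h2 h3
  have h5 : (fun x => c + algebraMap K L θ * x + ∑ i ∈ Finset.Icc 1 r, g i * x ^ p ^ i) =
      (fun x => c + (evL p g' r).toAddMonoidHom x) := by
    funext x
    show _ = c + ev p g' r x
    unfold ev
    rw [Finset.sum_range_succ', add_assoc]
    congr 1
    rw [add_comm]
    congr 1
    · have h6 : Finset.Icc 1 r = (Finset.range r).map ⟨fun i => i + 1, add_left_injective 1⟩ := by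
        ext j
        simp only [Finset.mem_Icc, Finset.mem_map, Finset.mem_range, Function.Embedding.coeFn_mk]
        constructor
        · rintro ⟨hj1, hj2⟩
          exact ⟨j - 1, by omega, by omega⟩
        · rintro ⟨i, hi, rfl⟩
          omega
      rw [h6, Finset.sum_map]
      refine Finset.sum_congr rfl fun i _ => ?_
      simp [hg']
    · simp [hg', hX]
  rw [h5]
  exact h4

end Pool.Agent.Results.MP_9b502d_nt.AdditiveCharP
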