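import Pool.Agent.TH450.FG.H

/-!
# Preperiodic points over function fields and the number of bad places

For every `d ≥ 2` there is a constant `C`, depending on nothing but `d`, such that a non-isotrivial
map `f` of degree `d` of the projective line over ANY function field `K` of one variable over ANY
field `k`, of any characteristic, has at most `C (s + 1) log (s + 2)` preperiodic points in the
projective line over `K`, where `s` is the number of places of `K` at which `f` does not have
potentially good reduction.  There is no dependence on the genus, the gonality or the degree of
`K`, so the maps with at most `s` such places satisfy the strong uniform boundedness principle.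

The local estimates (gain by pigeonhole in finitely many cells at a place of large size, loss of a
determinant at the other places) hold for all absolute values of algebraically closed fields.  At a
nonarchimedean place they can be applied to all powers of the absolute value, which removes their
additive constants.  The product formula then compares the sizes of `f` at the bad places with each
other only.  If there is no place of positive size the pairing of preperiodic points vanishes
identically, all their cross ratios are algebraic over `k`, and the map is isotrivial.
-/

set_option autoImplicit false

namespace Pool.Agent.Results.MP_9b502d_nt.BadPlacesStrong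

open Real Pool.Agent.H951R3.PB Pool.Agent.TH450.FG

universe u v

/-- For every `d ≥ 2` there is `C` such that for every field `k`, every function field `K` of one
variable over `k`, every map `f` of degree `d` of the projective line over `K` which is not
isotrivial, and every finite set `T` of absolute values of `K` such that each nontrivial absolute
value of `K`, trivial on `k`, at which `f` does not have potentially good reduction is equivalent
to a member of `T`, the map `f` has at most `C * (|T| + 1) * log (|T| + 2)` preperiodic points in
the projective line over `K`. -/
theorem result (d : ℕ) (hd : 2 ≤ d) : ∃ C : ℝ, 0 < C ∧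
    ∀ (k : Type v) (K : Type u) [Field k] [Field K] [Algebra k K],
      (⊤ : IntermediateField k K).FG →
      (∃ x : K, Transcendental k x ∧ Algebra.IsAlgebraic (IntermediateField.adjoin k {x}) K) →
    ∀ f : Fin 2 → MvPolynomial (Fin 2) K, (∀ i, (f i).IsHomogeneous d) →
      (∀ x : Fin 2 → AlgebraicClosure K, (∀ i, MvPolynomial.aeval x (f i) = 0) → x = 0) →
      ¬ Isotrivial k d f →
    ∀ T : Finset (AbsoluteValue K ℝ),
      (∀ v : AbsoluteValue K ℝ, v.IsNontrivial → (∀ c : k, c ≠ 0 → v (algebraMap k K c) = 1) →
        ¬ PotGood v d f → ∃ t ∈ T, v.IsEquiv t) →
    ∀ X : Finset (Fin 2 → K), (∀ x ∈ X, x ≠ 0) →
      (∀ x ∈ X, ∀ y ∈ X, ∀ c : K, x = c • y → x = y) →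
      (∀ x ∈ X, ∃ m n : ℕ, m < n ∧ ∃ c : K, c ≠ 0 ∧
        (fun v : Fin 2 → K => fun i => MvPolynomial.eval v (f i))^[n] x =
          c • (fun v : Fin 2 → K => fun i => MvPolynomial.eval v (f i))^[m] x) →
      (X.card : ℝ) ≤ C * (T.card + 1) * log (T.card + 2) :=
  main_ff d hd

end Pool.Agent.Results.MP_9b502d_nt.BadPlacesStrong
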