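import Pool.Agent.TH450.FH.Main2

/-!
# Preperiodic points over function fields and the discriminant of the field

For every `d ≥ 2` there is a constant `C`, depending on nothing but `d`, such that for every field
`k` of characteristic zero and every finite extension `K` of `k(t)`, a map of degree `d` of the
projective line over `K` which is not isotrivial has at most `C (deg δ + 1) log (deg δ + 2)`
preperiodic points in the projective line over `K`.  Here `δ ∈ k[t]` is the discriminant of any
basis of `K / k(t)` consisting of elements integral over `k[t]`, for instance of a basis of the
`k[t]`-module of all such elements, in which case `δ` is the discriminant of the extension.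

A derivation of `K` loses orders of vanishing at the ramified places only, and the total loss is
controlled by the degree of the ramification; the latter divides the discriminant in the sense of
degrees, because traces of elements with poles bounded by the ramification are polynomials.  The
Wronskian method gives a set of places, as large as the loss allows, outside of which the pairing of
preperiodic points is nonnegative, and the local estimates of gain and loss are applied at these
places.
-/

set_option autoImplicit false

namespace Pool.Agent.Results.MP_9b502d_nt.DiscriminantBound

open Pool.Agent.TH450.FG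

universe u v

/-- For every `d ≥ 2` there is `C` such that for every field `k` of characteristic zero, every
finite extension `K` of `k(t)` and every basis `b` of `K` over `k(t)` which consists of elements
integral over `k[t]`, the discriminant of `b` is a polynomial `δ` and every map `f` of degree `d`
of the projective line over `K` which is not isotrivial has at most
`C * (deg δ + 1) * log (deg δ + 2)` preperiodic points in the projective line over `K`. -/
theorem result (d : ℕ) (hd : 2 ≤ d) : ∃ C : ℝ, 0 < C ∧
    ∀ (k : Type v) (K : Type u) [Field k] [CharZero k] [Field K] [Algebra k K]
      [Algebra (RatFunc k) K] [IsScalarTower k (RatFunc k) K] [FiniteDimensional (RatFunc k) K]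
      (n : ℕ) (b : Module.Basis (Fin n) (RatFunc k) K),
      (∀ i, ((algebraMap (RatFunc k) K).comp
        (algebraMap (Polynomial k) (RatFunc k))).IsIntegralElem (b i)) →
    ∃ δ : Polynomial k, algebraMap (Polynomial k) (RatFunc k) δ = Algebra.discr (RatFunc k) b ∧
    ∀ f : Fin 2 → MvPolynomial (Fin 2) K, (∀ i, (f i).IsHomogeneous d) →
      (∀ x : Fin 2 → AlgebraicClosure K, (∀ i, MvPolynomial.aeval x (f i) = 0) → x = 0) →
      ¬ Isotrivial k d f →
    ∀ X : Finset (Fin 2 → K), (∀ x ∈ X, x ≠ 0) →
      (∀ x ∈ X, ∀ y ∈ X, ∀ c : K, x = c • y → x = y) →
      (∀ x ∈ X, ∃ m n : ℕ, m < n ∧ ∃ c : K, c ≠ 0 ∧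
        (fun v : Fin 2 → K => fun i => MvPolynomial.eval v (f i))^[n] x =
          c • (fun v : Fin 2 → K => fun i => MvPolynomial.eval v (f i))^[m] x) →
      (X.card : ℝ) ≤ C * (δ.natDegree + 1) * Real.log (δ.natDegree + 2) :=
  Pool.Agent.TH450.FH.main_disc d hd

end Pool.Agent.Results.MP_9b502d_nt.DiscriminantBound
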