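import Mathlib
import Pool.Agent.W277.UH.F2
import Pool.Agent.TH951.P.Ubp

/-!
# Uniform boundedness for all rational maps over function fields of every characteristic
-/

namespace Pool.Agent.Results.MP_9b502d_nt.RationalMapsAllChar

open Polynomial

universe u v

/-- The self-map of the projective line `K ∪ {∞}`, where `none` is `∞`, given by the rational
function `p / q`, where `p` and `q` are coprime and `d` is the larger of their degrees: it sends
`x` to `p(x) / q(x)`, or to `∞` when `q(x) = 0`, and it sends `∞` to the quotient of the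
coefficients of degree `d`, or to `∞` when that of `q` is zero. -/
noncomputable def mapP1 {K : Type*} [Field K] (p q : K[X]) (d : ℕ) : Option K → Option K
  | some x => by classical exact if q.eval x = 0 then none else some (p.eval x / q.eval x)
  | none => by classical exact if q.coeff d = 0 then none else some (p.coeff d / q.coeff d)

/-- With `φ(x) = (a x + b) / (c x + e)`, the map `p / q` of degree `d` satisfies
`φ ∘ (p / q) = (u / w) ∘ φ` for some `a, b, c, e` in `F` with `a e ≠ b c` and some polynomials
`u, w` of degree at most `d`, not both zero, with coefficients algebraic over `k`; the equation is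
written with denominators cleared. -/
def ConjAlg (k : Type*) {F : Type*} [Field k] [Field F] [Algebra k F] (p q : F[X])
    (d : ℕ) : Prop :=
  ∃ a b c e : F, a * e - b * c ≠ 0 ∧ ∃ u w : F[X], (u ≠ 0 ∨ w ≠ 0) ∧
    u.natDegree ≤ d ∧ w.natDegree ≤ d ∧ (∀ n, IsAlgebraic k (u.coeff n)) ∧
    (∀ n, IsAlgebraic k (w.coeff n)) ∧
    (C a * p + C b * q) * ∑ i ∈ Finset.range (d + 1),
      C (w.coeff i) * (C a * X + C b) ^ i * (C c * X + C e) ^ (d - i) =
    (C c * p + C e * q) * ∑ i ∈ Finset.range (d + 1),
      C (u.coeff i) * (C a * X + C b) ^ i * (C c * X + C e) ^ (d - i)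

/-- The map `p / q` of degree `d` over `K` is isotrivial: over an algebraic closure of `K` it is
conjugate to a map with coefficients algebraic over `k`. -/
def Isotrivial (k : Type*) {K : Type*} [Field k] [Field K] [Algebra k K] (p q : K[X])
    (d : ℕ) : Prop :=
  ConjAlg k (p.map (algebraMap K (AlgebraicClosure K))) (q.map (algebraMap K (AlgebraicClosure K)))
    d

/-- There is a function `N` such that, for every function field `K` of one variable over any field
`k` (of any characteristic), there is `c`, equal to `0` if `K = k(t)` for some `t`, such that for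
all `d ≥ 2` every rational map `p / q` of degree `d` over `K` which is not isotrivial has at most
`N(d, c)` preperiodic points in the projective line over `K`. -/
theorem result : ∃ N : ℕ → ℕ → ℕ, ∀ (k : Type u) (K : Type v) [Field k] [Field K]
    [Algebra k K], (⊤ : IntermediateField k K).FG →
    (∃ x : K, Transcendental k x ∧ Algebra.IsAlgebraic (IntermediateField.adjoin k {x}) K) →
    ∃ c : ℕ, ((∃ t : K, IntermediateField.adjoin k {t} = ⊤) → c = 0) ∧ ∀ d : ℕ, 2 ≤ d →
    ∀ p q : K[X], IsCoprime p q → max p.natDegree q.natDegree = d → ¬ Isotrivial k p q d →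
    {z : Option K | (Set.range fun m : ℕ => (mapP1 p q d)^[m] z).Finite}.encard ≤
      (N d c : ℕ∞) := by
  classical
  obtain ⟨N₀, hN₀⟩ := Pool.Agent.W277.UH.ubp_rationalU.{v, u}
  have h1 : ∀ d : ℕ, ∃ N : ℕ → ℕ, 2 ≤ d → ∀ (k : Type u) (K : Type v) [Field k] [Field K]
      [Algebra k K] (p : ℕ) [Fact p.Prime] [CharP k p]
      (Q : Pool.Agent.TH951.W.UB.PlaceData.{v} (Pool.Agent.TH951.P.EE k K)
        (Pool.Agent.TH951.P.LL k K)), (∀ x, Q.D x = 0 → ∃ y, y ^ p = x) →
      ∀ f g : K[X], IsCoprime f g → max f.natDegree g.natDegree = d →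
      ¬ Pool.Agent.TH951.P.IsoBar k (f.map (algebraMap K (AlgebraicClosure K)))
        (g.map (algebraMap K (AlgebraicClosure K))) d →
      {z : Option K | (Set.range fun m : ℕ =>
        (Pool.Agent.TH951.W.UH.ratP1 f g d)^[m] z).Finite}.encard ≤ (N Q.lossT.toNat : ℕ∞) := by
    intro d
    by_cases hd : 2 ≤ d
    · obtain ⟨N, hN⟩ := Pool.Agent.TH951.P.ubp_p.{v, u} d hd
      exact ⟨N, fun _ => hN⟩
    · exact ⟨fun _ => 0, fun h => absurd h hd⟩
  choose N₁ hN₁ using h1
  refine ⟨fun d c => max (N₀ d ^ (c + 1)) (N₁ d c), ?_⟩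
  intro k K _ _ _ hFG hx
  obtain ⟨p, hp⟩ := CharP.exists k
  rcases CharP.char_is_prime_or_zero k p with hprime | h0
  · haveI : Fact p.Prime := ⟨hprime⟩
    haveI : CharP (Pool.Agent.TH951.P.EE k K) p :=
      (RingHom.charP_iff (algebraMap k (Pool.Agent.TH951.P.EE k K))
        (algebraMap k (Pool.Agent.TH951.P.EE k K)).injective p).mp inferInstance
    haveI : CharP (Pool.Agent.TH951.P.LL k K) p :=
      (RingHom.charP_iff (algebraMap (Pool.Agent.TH951.P.EE k K) (Pool.Agent.TH951.P.LL k K))
        (algebraMap (Pool.Agent.TH951.P.EE k K) (Pool.Agent.TH951.P.LL k K)).injective p).mp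
          inferInstance
    haveI : IsAlgClosed (Pool.Agent.TH951.P.EE k K) := IsAlgClosure.isAlgClosed k
    obtain ⟨Q, hker, hrat⟩ := Pool.Agent.TH951.P.exists_pd_ff p (Pool.Agent.TH951.P.EE k K)
      (Pool.Agent.TH951.P.LL k K) (Pool.Agent.TH951.P.LL_fg k K hFG)
      (Pool.Agent.TH951.P.LL_trans k K hx)
    refine ⟨Q.lossT.toNat, fun h => ?_, fun d hd f g hco hmax hiso => ?_⟩
    · rw [hrat (Pool.Agent.TH951.P.LL_rat k K h)]
      rfl
    · have e : mapP1 f g d = Pool.Agent.TH951.W.UH.ratP1 f g d := by
        funext z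
        cases z <;> rfl
      rw [e]
      refine (hN₁ d hd k K p Q hker f g hco hmax hiso).trans ?_
      exact_mod_cast le_max_right _ _
  · subst h0
    haveI : CharZero k := CharP.charP_to_charZero k
    obtain ⟨c, hc0, hc⟩ := hN₀ k K hFG hx
    refine ⟨c, hc0, fun d hd f g hco hmax hiso => ?_⟩
    have h := hc d hd f g hco hmax (by
      rintro ⟨a, b, c, e, hdet, u, w, hne, hu, hw, hua, hwa, hid⟩
      apply hiso
      set ψ := algebraMap K (AlgebraicClosure K) with hψ
      have hψi := ψ.injective
      refine ⟨ψ a, ψ b, ψ c, ψ e, ?_, u.map ψ, w.map ψ, ?_, natDegree_map_le.trans hu,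
        natDegree_map_le.trans hw, fun n => ?_, fun n => ?_, ?_⟩
      · rw [← map_mul, ← map_mul, ← map_sub]
        exact (map_ne_zero ψ).mpr hdet
      · rcases hne with h | h
        · exact Or.inl ((Polynomial.map_ne_zero_iff hψi).mpr h)
        · exact Or.inr ((Polynomial.map_ne_zero_iff hψi).mpr h)
      · rw [coeff_map]
        exact (hua n).algebraMap
      · rw [coeff_map]
        exact (hwa n).algebraMap
      · have h1 := congrArg (fun g => g.map ψ) hid
        simp only [Polynomial.map_mul, Polynomial.map_add, Polynomial.map_sum, Polynomial.map_pow,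
          map_C, map_X] at h1
        simp only [coeff_map]
        exact h1)
    have e : mapP1 f g d = Pool.Agent.W277.UH.ratP1 f g d := by
      funext z
      cases z <;> rfl
    rw [e]
    refine h.trans ?_
    exact_mod_cast le_max_left _ _

end Pool.Agent.Results.MP_9b502d_nt.RationalMapsAllChar
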